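import Pool.Agent.Lib_helper35.RS3.DefsH

/-!
# Rubin's conjecture for abelian `p`-groups, all `S`: the condition on `S`
-/

namespace Pool.Agent.RS4

open Pool.Agent.RSK
open NumberField IsDedekindDomain

variable {F H : Type} [Field F] [NumberField F] [Field H] [NumberField H] [Algebra F H]
  {G : Type} [CommGroup G] [Fintype G]

/-- `#S ≥ r + 2` and, for all `N ≤ N'` in `G` with `G/N` cyclic, `[G : N] = p [G : N']`,
`#N = p ^ i`: if the places below the `w_l` are the only places in `S` which split completely in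
`H^N` (i.e. whose decomposition group is contained in `N`), more than
`[G : N'] (r + 1 + (i - e) (p - 1))` places of `H^N'` lie above `S`. -/
def SExp (p e : ℕ) (ι : G ≃* (H ≃ₐ[F] H)) (S : Finset (HeightOneSpectrum (𝓞 F))) {r : ℕ}
    (w : Fin r → Pl H) : Prop :=
  r + 2 ≤ Fintype.card (InfinitePlace F) + S.card ∧
  ∀ (N N' : Subgroup G) (i : ℕ), IsCyclic (G ⧸ N) → N ≤ N' → N.index = p * N'.index →
    Nat.card N = p ^ i →
    (∀ W : Pl H, InS S (dn F W) → (∀ g : G, act (ι g) W = W → g ∈ N) →
      ∃ l, dn F W = dn F (w l)) →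
    N'.index * (r + 1 + i * (p - 1)) <
      Fintype.card (PS (ovr (Kf ι N') S)) + N'.index * (e * (p - 1))

end Pool.Agent.RS4
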