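import Pool.Agent.Lib_helper35.RS4.D
import Pool.Agent.Lib_helper35.RS4.DefsE

/-!
# Rubin's conjecture for abelian `p`-groups, all `S`
-/

namespace Pool.Agent.RS4

set_option linter.unusedSectionVars false

open Pool.Agent.RSK Pool.Agent.RS2 Pool.Agent.RS3
open NumberField IsDedekindDomain

variable {F H : Type} [Field F] [NumberField F] [Field H] [NumberField H] [Algebra F H]
  {G : Type} [CommGroup G] [Fintype G] {p : ℕ} {ι : G ≃* (H ≃ₐ[F] H)}
  {S T : Finset (HeightOneSpectrum (𝓞 F))} {r : ℕ} {w : Fin r → Pl H}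
  {fr : HeightOneSpectrum (𝓞 F) → G}

theorem rubinUp_mul {n : ℕ} (m : ℕ) (h : RubinUp n ι S T w fr) : RubinUp (m * n) ι S T w fr := by
  obtain ⟨c, Θ, h1, h2, M, i1, i2, e, l, h3, u, h4⟩ := h
  refine ⟨c, Θ, h1, h2, M, i1, i2, e, l, h3, u, fun ψ => ?_, h4.er, h4.value⟩
  obtain ⟨a, ha⟩ := h4.integral ψ
  refine ⟨m • a, ?_⟩
  rw [mul_smul, ha, map_nsmul]

/-- the condition for `#G ∣ p ^ e` -/
theorem size_card [IsGalois F H] (hp : p.Prime) (hD : Data ι S T r w fr) {e : ℕ}
    (he : Nat.card G ∣ p ^ e) (N N' : Subgroup G) (i : ℕ) (hidx : N.index = p * N'.index)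
    (hi : Nat.card N = p ^ i) :
    N'.index * (r + 1 + i * (p - 1)) <
      Fintype.card (PS (ovr (Kf ι N') S)) + N'.index * (e * (p - 1)) := by
  have h1 := card_ovr_ge hD N'
  have h2 := hD.card
  have h3 : p ^ (i + 1) ∣ p ^ e := by
    refine dvd_trans ?_ he
    rw [← N.card_mul_index, hi, hidx, pow_succ]
    exact Nat.mul_dvd_mul_left _ (Nat.dvd_mul_right _ _)
  have h4 : i + 1 ≤ e := (Nat.pow_dvd_pow_iff_le_right hp.one_lt).1 h3
  have h5 : 1 ≤ p - 1 := by
    have := hp.two_le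
    omega
  have h6 : 1 + i * (p - 1) ≤ e * (p - 1) := by
    calc 1 + i * (p - 1) ≤ (p - 1) + i * (p - 1) := by omega
      _ = (i + 1) * (p - 1) := by ring
      _ ≤ e * (p - 1) := Nat.mul_le_mul_right _ h4
  have h7 : N'.index * (r + 1 + i * (p - 1)) ≤ r * N'.index + N'.index * (e * (p - 1)) := by
    calc N'.index * (r + 1 + i * (p - 1)) = r * N'.index + N'.index * (1 + i * (p - 1)) := by ring
      _ ≤ r * N'.index + N'.index * (e * (p - 1)) :=
        Nat.add_le_add_left (Nat.mul_le_mul_left _ h6) _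
  omega

theorem rubin_main4 [IsGalois F H] (hp : p.Prime) (hG : IsPGroup p G) (hD : Data ι S T r w fr)
    (hext : KumP p F H ∨ ∀ N : Subgroup G, IsCyclic (G ⧸ N) → Hol3 p N.index F (Kf ι N)) {e : ℕ}
    (hS : Nat.card G ∣ p ^ e ∨ SBig p r F G S ∨ SExp p e ι S w) :
    RubinUp (p ^ e) ι S T w fr := by
  rcases hS with hS | hS | hS
  · have hθ : ∀ N : Subgroup G, IsCyclic (G ⧸ N) → Hol3 p N.index F (Kf ι N) := by
      rcases hext with ⟨F₀, i1, i2, i3, i4, i5, e', ζ, B, hK, h2⟩ | hθ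
      · have hn : 0 < p ^ e' := pow_pos hp.pos _
        have hexp : ∀ g : G, g ^ p ^ e' = 1 := fun g => ι.injective (by
          rw [map_pow, kum_exp hK hn, map_one])
        exact fun N hN => hol3_layers hp hexp (kum_hol hp hK h2) N hN
      · exact hθ
    exact rubin_p4 hp hG hD hθ (fun _ => hS)
      (fun N N' i _ _ h3 h4 _ => size_card hp hD hS N N' i h3 h4)
  · have h := rubinUp_mul (p ^ e) ((rubinUp_one ι S T w fr).2
      (rubin_of ι S T w fr (rubin_main hp hG hD hext (Or.inl hS))))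
    rwa [mul_one] at h
  · have hθ : ∀ N : Subgroup G, IsCyclic (G ⧸ N) → Hol3 p N.index F (Kf ι N) := by
      rcases hext with ⟨F₀, i1, i2, i3, i4, i5, e', ζ, B, hK, h2⟩ | hθ
      · have hn : 0 < p ^ e' := pow_pos hp.pos _
        have hexp : ∀ g : G, g ^ p ^ e' = 1 := fun g => ι.injective (by
          rw [map_pow, kum_exp hK hn, map_one])
        exact fun N hN => hol3_layers hp hexp (kum_hol hp hK h2) N hN
      · exact hθ
    refine rubin_p4 hp hG hD hθ (fun h => ?_) hS.2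
    have := hS.1
    omega

end Pool.Agent.RS4
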