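import Pool.Agent.Lib_helper35.RS4.B
import Pool.Agent.Lib_helper35.RS2.P_LA
import Pool.Agent.Lib_helper17.RS.P_AD2
import Pool.Agent.Lib_helper17.RS.P_PF
import Pool.Agent.Lib_helper17.RS.P_CN
import Pool.Agent.Lib_helper17.RS.P_RF1
import Pool.Agent.Lib_helper17.RS.P_TR2
import Pool.Agent.Lib_helper17.RS.P_EF

/-!
# Rubin's conjecture for abelian `p`-groups, all `S`: the trivial character, `#S = r + 1`
-/

namespace Pool.Agent.RS4

set_option linter.unusedSectionVars false

open Pool.Agent.RSK Pool.Agent.RS2 Pool.Agent.RS3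
open NumberField IsDedekindDomain Filter Topology Complex

section TRIV

variable {F H : Type} [Field F] [NumberField F] [Field H] [NumberField H] [Algebra F H]
  [IsGalois F H] {G : Type} [CommGroup G] [Fintype G] {ι : G ≃* (H ≃ₐ[F] H)}
  {S T : Finset (HeightOneSpectrum (𝓞 F))} {r : ℕ} {w : Fin r → Pl H}
  {fr : HeightOneSpectrum (𝓞 F) → G}

/-- the trivial group acting on `F` -/
noncomputable def idF (F : Type) [Field F] : PUnit.{1} ≃* (F ≃ₐ[F] F) where
  toFun _ := 1
  invFun _ := PUnit.unit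
  left_inv _ := rfl
  right_inv σ := by
    ext x
    exact (σ.commutes x).symm
  map_mul' _ _ := by rw [mul_one]

theorem quo_triv (ι : G ≃* (H ≃ₐ[F] H)) : Quo ι (idF F) (1 : G →* PUnit.{1}) where
  surj := fun _ => ⟨1, rfl⟩
  compat := fun g x => ((ι g).commutes x).symm

/-- the regulator is the absolute value of the determinant of the logarithms at `r` places -/
theorem reg_eq_det (hD : Data ι S T r w fr)
    (hr : Fintype.card (PS S) = r + 1)
    (b : Module.Basis (Fin r) ℤ (Additive (Un S T))) :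
    regS S (bu b) = |Matrix.det (Matrix.of fun i j : Fin r => lg (dn F (w i)) (bu b j : F))| := by
  classical
  -- the places below the `w i`
  have hv : ∀ i, ∃ P : PS S, P.pl = dn F (w i) := fun i => qk_of_inS (hD.mem i)
  choose v hv using hv
  have hinj : Function.Injective v := by
    intro i i' h
    apply hD.inj
    rw [← hv, ← hv, h]
  -- the remaining place
  obtain ⟨P₀, hP₀⟩ : ∃ P₀ : PS S, ∀ i, v i ≠ P₀ := by
    by_contra hc
    push Not at hc
    have h1 : Function.Surjective v := fun P => hc P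
    have h2 := Fintype.card_le_of_surjective v h1
    rw [hr, Fintype.card_fin] at h2
    omega
  have hsum : ∀ j, ∑ P : PS S, lg P.pl (bu b j : F) = 0 := fun j =>
    sum_lg (Additive.toMul (b j) : Un S T).2
  have h1 := adet_minor (fun (P : PS S) (j : Fin r) => lg P.pl (bu b j : F)) hsum
    (by rw [hr, Fintype.card_fin]) P₀
  have h2 : (fun (P : PS S) (j : Option (Fin r)) =>
      j.elim 1 ((fun (P : PS S) (j : Fin r) => lg P.pl (bu b j : F)) P)) = lmat S (bu b) := by
    funext P j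
    rcases j with _ | j <;> rfl
  have hc0 : (Fintype.card (PS S) : ℝ) ≠ 0 := by
    rw [hr]
    positivity
  have h3 : regS S (bu b) = adet (fun (P : {P : PS S // P ≠ P₀}) (j : Fin r) =>
      lg P.1.pl (bu b j : F)) := by
    unfold regS
    rw [← h2, ← h1]
    exact mul_div_cancel_right₀ _ hc0
  rw [h3]
  have hbij : Function.Bijective (fun i : Fin r => (⟨v i, hP₀ i⟩ : {P : PS S // P ≠ P₀})) := by
    rw [Fintype.bijective_iff_injective_and_card]
    constructor
    · intro i i' h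
      exact hinj (congrArg Subtype.val h)
    · rw [Fintype.card_fin, Fintype.card_subtype_compl, hr, Fintype.card_subtype_eq]
      rfl
  rw [adet_eq _ (Equiv.ofBijective _ hbij)]
  congr 2
  ext i j
  rw [Matrix.of_apply, Matrix.of_apply]
  show lg (v i).pl (bu b j : F) = _
  rw [hv]

/-- the element for the trivial character if `#S = r + 1` -/
theorem triv_elt (hD : Data ι S T r w fr)
    (hr : Fintype.card (InfinitePlace F) + S.card = r + 1) {n : ℕ} (hn : Nat.card G ∣ n) :
    ∃ (c : (G →* ℂˣ) → ℂ) (b : Fin r → UM ι S T) (x : MonoidAlgebra ℚ G),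
      Ft4Q n ι S T w fr ⊤ c b x := by
  classical
  have htf : TFree S T := RSK.tf_F (RSK.tf_H hD).1
  obtain ⟨n', ⟨b⟩⟩ := un_exists hD.disj htf
  obtain ⟨hn', hR, hh, Z, hZ1, hZ2, hZ3⟩ := cnf hD.disj htf b
  have hcard : Fintype.card (PS S) = r + 1 := by
    rw [← hr]
    simp [PS]
  obtain rfl : n' = r := by omega
  have hreg := reg_eq_det hD hcard b
  set δ : ℝ := Matrix.det (Matrix.of fun i j : Fin n' => lg (dn F (w i)) (bu b j : F)) with hδ
  -- the sign
  obtain ⟨s, hs⟩ : ∃ s : ℤ, (s : ℝ) * δ = regS S (bu b) := by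
    rcases le_or_gt 0 δ with h | h
    · exact ⟨1, by rw [hreg, abs_of_nonneg h]; push_cast; ring⟩
    · exact ⟨-1, by rw [hreg, abs_of_neg h]; push_cast; ring⟩
  set C : ℂ := (-1) ^ (T.card + 1) * ((hA S T * regS S (bu b) : ℝ) : ℂ) with hC
  have hC0 : C ≠ 0 := by
    rw [hC]
    refine mul_ne_zero (pow_ne_zero _ (by norm_num)) ?_
    have h1 : (0 : ℝ) < hA S T * regS S (bu b) := mul_pos (by exact_mod_cast hh) hR
    exact_mod_cast h1.ne'
  obtain ⟨q, rfl⟩ := hn
  set m : ℤ := q * (s * (-1) ^ (T.card + 1) * hA S T) with hm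
  set b' : Fin n' → UM (idF F) S T := fun j => UM.mk (bu b j) (by
    rw [la_ovr, la_ovr]
    exact (Additive.toMul (b j) : Un S T).2) with hb'
  obtain ⟨b₁, x₁, -, h2, h3, h4⟩ := transport (quo_triv ι) hD.split b'
    (MonoidAlgebra.single 1 (((Nat.card G : ℤ) * m : ℤ) : ℚ))
  have hker1 : ∀ χ : G →* ℂˣ, χ.ker = ⊤ → χ = 1 := by
    intro χ hχ
    ext g
    have h : g ∈ χ.ker := by rw [hχ]; trivial
    rw [MonoidHom.mem_ker.1 h]
    rfl
  have hcomp : ∀ χ' : PUnit.{1} →* ℂˣ, χ'.comp (1 : G →* PUnit.{1}) = 1 := by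
    intro χ'
    ext g
    show ((χ' 1 : ℂˣ) : ℂ) = 1
    rw [map_one, Units.val_one]
  refine ⟨fun _ => C, b₁, x₁, ?_, ?_, ?_, ?_, ?_⟩
  · intro χ hχ
    refine ⟨Z, hZ1, ?_, hZ3⟩
    intro s' hs'
    rw [hZ2 s' hs', hker1 χ hχ, lst_one]
  · intro χ hχ
    refine h2 χ ?_
    rintro ⟨χ', rfl⟩
    apply hχ
    rw [hcomp]
    exact MonoidHom.ker_one
  · intro χ hχ
    have h := h3 1
    rw [hcomp] at h
    rw [hker1 χ hχ, h, ev_single, RSK.rf1_ev]
    have h5 : (Matrix.of fun i j : Fin n' => ∑ γ : PUnit.{1},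
        ((lg (act (idF F γ) (dn F (w i))) ((b' j).val : F) : ℝ) : ℂ) *
          ((1 : PUnit.{1} →* ℂˣ) γ : ℂ)) =
        (Matrix.of fun i j : Fin n' => lg (dn F (w i)) (bu b j : F)).map (algebraMap ℝ ℂ) := by
      ext i j
      rw [Matrix.of_apply, Fintype.sum_unique, MonoidHom.one_apply, Units.val_one, mul_one,
        Matrix.map_apply, Matrix.of_apply]
      show ((lg (act (1 : F ≃ₐ[F] F) (dn F (w i))) (bu b j : F) : ℝ) : ℂ) = _
      rw [act_one]
      rfl
    rw [h5, ← RingHom.mapMatrix_apply, ← RingHom.map_det, ← hδ, hC]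
    have h6 : (algebraMap ℝ ℂ) δ = ((δ : ℝ) : ℂ) := rfl
    rw [h6, ← hs, hm]
    push_cast
    ring
  · intro χ _ h0
    exact absurd h0 hC0
  · intro ψ
    obtain ⟨ψ', hψ'⟩ := h4 ψ
    refine hψ' (MonoidAlgebra.single 1 m * (pmat ψ' b').det) ?_
    have hk : Nat.card (1 : G →* PUnit.{1}).ker = Nat.card G := by
      rw [MonoidHom.ker_one]
      exact Nat.card_congr Subgroup.topEquiv.toEquiv
    have e1 : (MonoidAlgebra.single 1 (((Nat.card G : ℤ) * m : ℤ) : ℚ) :
        MonoidAlgebra ℚ PUnit.{1}) =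
        MonoidAlgebra.single 1 ((Nat.card G : ℤ) : ℚ) * MonoidAlgebra.single 1 (m : ℚ) := by
      rw [MonoidAlgebra.single_mul_single, mul_one, Int.cast_mul]
    rw [hk, map_mul, map_mul, toQ_single, toQ_single, e1, mul_assoc]

/-- the trivial character does not contribute if `#S ≥ r + 2` -/
theorem triv_zero (hD : Data ι S T r w fr)
    (hr : r + 2 ≤ Fintype.card (InfinitePlace F) + S.card) {n : ℕ} :
    ∃ (c : (G →* ℂˣ) → ℂ) (b : Fin r → UM ι S T) (x : MonoidAlgebra ℚ G),
      Ft4Q n ι S T w fr ⊤ c b x := by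
  classical
  have htf : TFree S T := RSK.tf_F (RSK.tf_H hD).1
  obtain ⟨n', ⟨b⟩⟩ := un_exists hD.disj htf
  obtain ⟨hn', -, -, Z, hZ1, hZ2, hZ3⟩ := cnf hD.disj htf b
  have hcard : Fintype.card (PS S) = Fintype.card (InfinitePlace F) + S.card := by simp [PS]
  have hlt : r < n' := by omega
  have hker1 : ∀ χ : G →* ℂˣ, χ.ker = ⊤ → χ = 1 := by
    intro χ hχ
    ext g
    have h : g ∈ χ.ker := by rw [hχ]; trivial
    rw [MonoidHom.mem_ker.1 h]
    rfl
  refine ⟨fun _ => 0, fun _ => 0, 0, ?_, ?_, ?_, ?_, ?_⟩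
  · intro χ hχ
    refine ⟨Z, hZ1, ?_, ?_⟩
    · intro s' hs'
      rw [hZ2 s' hs', hker1 χ hχ, lst_one]
    · have h4 : Tendsto (fun s : ℂ => s ^ (n' - r)) (𝓝[≠] 0) (𝓝 0) := by
        have h5 : Tendsto (fun s : ℂ => s ^ (n' - r)) (𝓝 0) (𝓝 (0 ^ (n' - r))) :=
          (continuous_pow (n' - r)).tendsto 0
        rw [zero_pow (by omega)] at h5
        exact h5.mono_left nhdsWithin_le_nhds
      have h5 := hZ3.mul h4
      rw [mul_zero] at h5
      refine h5.congr' ?_
      filter_upwards [self_mem_nhdsWithin] with s hs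
      have hs' : s ≠ 0 := hs
      have e : s ^ n' = s ^ r * s ^ (n' - r) := by rw [← pow_add]; congr 1; omega
      have h6 : s ^ r ≠ 0 := pow_ne_zero _ hs'
      have h7 : s ^ (n' - r) ≠ 0 := pow_ne_zero _ hs'
      rw [e]
      field_simp
  · intro χ _
    exact map_zero _
  · intro χ _
    rw [map_zero, zero_mul, mul_zero]
  · intro χ _ _
    exact map_zero _
  · intro ψ
    exact ⟨0, by rw [zero_mul, map_zero]⟩

end TRIV

end Pool.Agent.RS4
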