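import Pool.Agent.Lib_helper17.RS.Stmt

/-!
# Rubin's conjecture up to a factor
-/

namespace Pool.Agent.RS4

open Pool.Agent.RSK
open NumberField IsDedekindDomain
open scoped TensorProduct

section M

variable {R M A B : Type} [CommRing R] [AddCommGroup M] [Module R M] [CommRing A] [Algebra R A]
  [Module ℚ A] [CommRing B] [Module ℚ B] {r : ℕ}

/-- The conditions of `IsRub`, but with `n ψ(u) ∈ R` instead of `ψ(u) ∈ R`: the element
`u ∈ ℚ ⊗ ⋀^r_R M` is killed by `I`, all maps `ψ_1 ∧ … ∧ ψ_r` with `ψ_i ∈ Hom_R(M, R)` map `n u`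
to `R`, and `l_1 ∧ … ∧ l_r` maps `u` to `Θ`. -/
structure IsRubUp (n : ℕ) (j : R →+* B) (l : Fin r → (M →ₗ[R] A)) (I : Set R) (Θ : A)
    (u : (⋀[R]^r M) ⊗[ℤ] ℚ) : Prop where
  /-- `ψ_1 ∧ … ∧ ψ_r` maps `n u` to `R`, for all `ψ_i ∈ Hom_R(M, R)` -/
  integral : ∀ ψ : Fin r → (M →ₗ[R] R), ∃ a : R,
    n • extQ (j.toAddMonoidHom.comp (detMap ψ).toAddMonoidHom) u = j a
  /-- `I` annihilates `u` -/
  er : ∀ a ∈ I, a • u = 0
  /-- `(l_1 ∧ … ∧ l_r)(u) = Θ` -/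
  value : extQ (detMap l).toAddMonoidHom u = Θ

end M

section R

variable {F H : Type} [Field F] [NumberField F] [Field H] [NumberField H] [Algebra F H]
variable {G : Type} [CommGroup G] [Fintype G]

/-- The conclusion of Rubin's conjecture up to the factor `n`: there is an element `u` with
`(w_1^* ∧ … ∧ w_r^*)(λ(u)) = Θ` such that `u = e_r u` and `n u` lies in Rubin's lattice. For `n = 1`
this is `Rubin`. -/
def RubinUp (n : ℕ) (ι : G ≃* (H ≃ₐ[F] H)) (S T : Finset (HeightOneSpectrum (𝓞 F))) {r : ℕ}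
    (w : Fin r → Pl H) (fr : HeightOneSpectrum (𝓞 F) → G) : Prop :=
  ∃ (c : (G →* ℂˣ) → ℂ) (Θ : MonoidAlgebra ℝ G), Lead S T r fr c ∧ (∀ χ, evR χ Θ = c χ⁻¹) ∧
    ∃ (M : Type) (_ : AddCommGroup M) (_ : Module (MonoidAlgebra ℤ G) M) (e : M → Hˣ)
      (l : Fin r → (M →ₗ[MonoidAlgebra ℤ G] MonoidAlgebra ℝ G)), IsMod ι S T w e l ∧
        ∃ u, IsRubUp n (toQ G) l {a | ∀ χ, c χ ≠ 0 → evZ χ a = 0} Θ u

theorem rubinUp_one (ι : G ≃* (H ≃ₐ[F] H)) (S T : Finset (HeightOneSpectrum (𝓞 F))) {r : ℕ}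
    (w : Fin r → Pl H) (fr : HeightOneSpectrum (𝓞 F) → G) :
    RubinUp 1 ι S T w fr ↔ Rubin ι S T w fr := by
  constructor
  · rintro ⟨c, Θ, h1, h2, M, i1, i2, e, l, h3, u, h4⟩
    exact ⟨c, Θ, h1, h2, M, i1, i2, e, l, h3, u,
      fun ψ => by simpa using h4.integral ψ, h4.er, h4.value⟩
  · rintro ⟨c, Θ, h1, h2, M, i1, i2, e, l, h3, u, h4⟩
    exact ⟨c, Θ, h1, h2, M, i1, i2, e, l, h3, u,
      fun ψ => by simpa using h4.integral ψ, h4.er, h4.value⟩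

end R

end Pool.Agent.RS4
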