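import Pool.Agent.Lib_helper35.RS4.C
import Pool.Agent.Lib_helper35.RS4.Stmt4
import Pool.Agent.Lib_helper35.RS3.Main

/-!
# Rubin's conjecture for abelian `p`-groups, all `S`: the final assembly
-/

namespace Pool.Agent.RS4

set_option linter.unusedSectionVars false

open Pool.Agent.RSK Pool.Agent.RS2 Pool.Agent.RS3
open NumberField IsDedekindDomain Filter Topology Complex
open scoped TensorProduct

section SCL

variable {R M : Type} [CommRing R] [AddCommGroup M] [Module R M] {r : ℕ}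

/-- multiplication by the rational number `q` -/
noncomputable def scl (q : ℚ) : (⋀[R]^r M) ⊗[ℤ] ℚ →+ (⋀[R]^r M) ⊗[ℤ] ℚ :=
  (TensorProduct.map (LinearMap.id : (⋀[R]^r M) →ₗ[ℤ] (⋀[R]^r M))
    (LinearMap.mulLeft ℤ q)).toAddMonoidHom

theorem scl_tmul (q : ℚ) (m : ⋀[R]^r M) (s : ℚ) :
    scl q (m ⊗ₜ[ℤ] s) = m ⊗ₜ[ℤ] (q * s) := rfl

theorem extQ_scl {B : Type} [AddCommGroup B] [Module ℚ B] (f : (⋀[R]^r M) →+ B) (q : ℚ)
    (u : (⋀[R]^r M) ⊗[ℤ] ℚ) : extQ f (scl q u) = q • extQ f u := by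
  induction u using TensorProduct.induction_on with
  | zero => rw [map_zero, map_zero, smul_zero]
  | tmul m s => rw [scl_tmul, extQ_tmul, extQ_tmul, mul_smul]
  | add a b ha hb => rw [map_add, map_add, map_add, ha, hb, smul_add]

theorem smul_scl (a : R) (q : ℚ) (u : (⋀[R]^r M) ⊗[ℤ] ℚ) : a • scl q u = scl q (a • u) := by
  induction u using TensorProduct.induction_on with
  | zero => rw [map_zero, smul_zero, map_zero]
  | tmul m s => rw [scl_tmul, TensorProduct.smul_tmul', TensorProduct.smul_tmul', scl_tmul]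
  | add a b ha hb => rw [map_add, smul_add, smul_add, map_add, ha, hb]

end SCL

section FT

variable {F H : Type} [Field F] [NumberField F] [Field H] [NumberField H] [Algebra F H]
  [IsGalois F H] {G : Type} [CommGroup G] [Fintype G] {p : ℕ} {ι : G ≃* (H ≃ₐ[F] H)}
  {S T : Finset (HeightOneSpectrum (𝓞 F))} {r : ℕ} {w : Fin r → Pl H}
  {fr : HeightOneSpectrum (𝓞 F) → G}

theorem rubinUp_of {n : ℕ} (hn : n ≠ 0) {c : (G →* ℂˣ) → ℂ} (hL : Lead S T r fr c)
    {u : (⋀[MonoidAlgebra ℤ G]^r (UM ι S T)) ⊗[ℤ] ℚ}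
    (hu : IsRubin ι S T w (fun χ => n * c χ) u) : RubinUp n ι S T w fr := by
  have hn' : (n : ℚ) ≠ 0 := Nat.cast_ne_zero.2 hn
  have hn'' : (n : ℂ) ≠ 0 := Nat.cast_ne_zero.2 hn
  set v := scl ((n : ℚ)⁻¹) u with hv
  refine ⟨c, extQ (detMap (fun i => wl ι S T (w i))).toAddMonoidHom v, hL, ?_,
    UM ι S T, inferInstance, inferInstance, fun m => m.val, fun i => wl ι S T (w i),
    ⟨?_, ?_, ?_, ?_, ?_⟩, v, ?_⟩
  · intro χ
    rw [hv, extQ_scl, map_rat_smul, hu.value χ, Rat.smul_def]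
    push_cast
    field_simp
  · intro m n hmn
    exact UM.ext hmn
  · intro x
    rw [← isU_iff]
    constructor
    · rintro ⟨m, rfl⟩
      exact m.val_mem
    · intro hx
      exact ⟨UM.mk x hx, UM.val_mk x hx⟩
  · intro m n
    exact UM.val_add m n
  · intro g m
    exact um_single_smul ι S T g m
  · intro i m
    rfl
  · refine ⟨?_, ?_, rfl⟩
    · intro ψ
      obtain ⟨a, ha⟩ := hu.integral ψ
      refine ⟨a, ?_⟩
      rw [hv, extQ_scl, ← Nat.cast_smul_eq_nsmul ℚ, smul_smul, mul_inv_cancel₀ hn', one_smul]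
      exact ha
    · intro a ha
      rw [hv, smul_scl, hu.er a, map_zero]
      intro χ hχ
      refine ha χ ?_
      intro h0
      apply hχ
      show (n : ℂ) * c χ = 0
      rw [h0, mul_zero]

theorem rubin_p4 (hp : p.Prime) (hG : IsPGroup p G) (hD : Data ι S T r w fr)
    (hθ : ∀ N : Subgroup G, IsCyclic (G ⧸ N) → Hol3 p N.index F (Kf ι N)) {e : ℕ}
    (hS : Fintype.card (InfinitePlace F) + S.card = r + 1 → Nat.card G ∣ p ^ e)
    (hS' : ∀ (N N' : Subgroup G) (i : ℕ), IsCyclic (G ⧸ N) → N ≤ N' → N.index = p * N'.index →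
      Nat.card N = p ^ i →
      (∀ W : Pl H, InS S (dn F W) → (∀ g : G, act (ι g) W = W → g ∈ N) →
        ∃ l, dn F W = dn F (w l)) →
      N'.index * (r + 1 + i * (p - 1)) <
        Fintype.card (PS (ovr (Kf ι N') S)) + N'.index * (e * (p - 1))) :
    RubinUp (p ^ e) ι S T w fr := by
  classical
  have hall : ∀ N : Subgroup G, IsCyclic (G ⧸ N) → ∃ (c : (G →* ℂˣ) → ℂ)
      (b : Fin r → UM ι S T) (x : MonoidAlgebra ℚ G), Ft4Q (p ^ e) ι S T w fr N c b x := by
    intro N hN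
    by_cases hT : N = ⊤
    · subst hT
      by_cases h : Fintype.card (InfinitePlace F) + S.card = r + 1
      · exact triv_elt hD h (hS h)
      · have h1 := hD.card
        exact triv_zero hD (by omega)
    · exact ft4_N hp hG N hN hT hD (hθ N hN)
        (fun N' i h1 h2 h3 h4 => hS' N N' i hN h1 h2 h3 h4)
  choose C B X hP using hall
  have hker : ∀ χ : G →* ℂˣ, IsCyclic (G ⧸ χ.ker) := by
    intro χ
    haveI : Finite χ.range := Set.finite_range χ |>.to_subtype
    haveI : IsCyclic χ.range := inferInstance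
    exact (QuotientGroup.quotientKerEquivRange χ).symm.isCyclic.1 inferInstance
  let c : (G →* ℂˣ) → ℂ := fun χ => C χ.ker (hker χ) χ
  have hc : ∀ N (hN : IsCyclic (G ⧸ N)) (χ : G →* ℂˣ), χ.ker = N → c χ = C N hN χ := by
    intro N hN χ h
    subst h
    rfl
  have hL : Lead S T r fr c := by
    intro χ
    obtain ⟨Λ, h1, h2, h3⟩ := (hP χ.ker (hker χ)).lead χ rfl
    exact ⟨Λ, h1, h2, h3⟩
  let K := {N : Subgroup G // IsCyclic (G ⧸ N)}
  haveI : Fintype K := Fintype.ofFinite K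
  obtain ⟨u, hu⟩ := wrap ι S T w (fun χ => (p ^ e : ℕ) * c χ) (K := K) (fun N => B N.1 N.2)
    (fun N => X N.1 N.2) (by
      intro χ
      rw [Finset.sum_eq_single ⟨χ.ker, hker χ⟩]
      · rw [(hP χ.ker (hker χ)).val χ rfl, hc χ.ker (hker χ) χ⁻¹ (ft3_ker_inv χ)]
      · intro N _ hN
        have : χ.ker ≠ N.1 := fun h => hN (Subtype.ext h.symm)
        rw [(hP N.1 N.2).off χ this, zero_mul]
      · intro h
        exact absurd (Finset.mem_univ _) h) (by
      intro χ N h0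
      by_cases hf : χ.ker = N.1
      · apply (hP N.1 N.2).van χ hf
        rw [← hc N.1 N.2 χ hf]
        have h1 : ((p ^ e : ℕ) : ℂ) ≠ 0 := Nat.cast_ne_zero.2 (pow_pos hp.pos _).ne'
        exact (mul_eq_zero.1 h0).resolve_left h1
      · exact (hP N.1 N.2).off χ hf) (by
      intro ψ
      have h : ∀ N : K, ∃ a : MonoidAlgebra ℤ G, X N.1 N.2 * toQ G (pmat ψ (B N.1 N.2)).det =
          toQ G a := fun N => (hP N.1 N.2).int ψ
      choose a ha using h
      refine ⟨∑ N, a N, ?_⟩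
      rw [map_sum]
      exact Finset.sum_congr rfl fun N _ => ha N)
  exact rubinUp_of (pow_pos hp.pos _).ne' hL hu

end FT

end Pool.Agent.RS4
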