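import Pool.Agent.Lib_helper35.RS2.P_CG
import Pool.Agent.Lib_helper35.RS2.P_AF

/-!
# Rubin's conjecture for abelian `p`-groups, all `S`: integrality up to a power of `p`
-/

namespace Pool.Agent.RS4

set_option linter.unusedSectionVars false

open Pool.Agent.RSK Pool.Agent.RS2
open NumberField IsDedekindDomain Filter Topology Complex

section ALG

variable {G : Type} [CommGroup G] [Fintype G] {P : Subgroup G} {p j : ℕ}

theorem ev_single (χ : G →* ℂˣ) (q : ℚ) : evQ χ (MonoidAlgebra.single 1 q) = (q : ℂ) := by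
  unfold evQ
  rw [MonoidAlgebra.lift_single, map_one, Algebra.smul_def, mul_one]
  rfl

theorem toQ_single (g : G) (n : ℤ) :
    toQ G (MonoidAlgebra.single g n) = MonoidAlgebra.single g (n : ℚ) := by
  unfold toQ
  simp

/-- `alg_fin` applied to `p ^ e y` -/
theorem alg_fin_e (hC : CycP p j P) (y : MonoidAlgebra ℚ G) (hy : toQ G (nP P) * y = 0)
    {m κ e : ℕ} (hN : ∃ t : ℤ, pF P (fun χ => evQ χ y) = (p : ℂ) ^ m * t)
    (hκ : p ^ (j - 1) * (κ * (p - 1) + 1) ≤ m + p ^ (j - 1) * (e * (p - 1)))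
    (h2 : ∀ l : ℕ, l.Prime → l ≠ p → ∃ (k : ℕ) (a : MonoidAlgebra ℤ G), ¬ l ∣ k ∧
      MonoidAlgebra.single 1 (k : ℚ) * y = toQ G a) :
    ∃ a : MonoidAlgebra ℤ G, MonoidAlgebra.single 1 ((p : ℚ) ^ e) * y =
      toQ G (MonoidAlgebra.single 1 ((p : ℤ) ^ κ) * a) := by
  refine alg_fin hC _ ?_ ?_ hκ ?_
  · rw [mul_left_comm, hy, mul_zero]
  · obtain ⟨t, ht⟩ := hN
    refine ⟨t, ?_⟩
    have h1 : (fun χ : G →* ℂˣ => evQ χ (MonoidAlgebra.single 1 ((p : ℚ) ^ e) * y)) =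
        fun χ => (p : ℂ) ^ e * evQ χ y := by
      funext χ
      rw [map_mul, ev_single]
      push_cast
      rfl
    rw [h1, at_pF_mul, at_pF_const hC, ht, ← mul_assoc, ← pow_mul, ← pow_add]
    congr 2
    ring
  · intro l hl hlp
    obtain ⟨k, a, hk, ha⟩ := h2 l hl hlp
    refine ⟨k, MonoidAlgebra.single 1 ((p : ℤ) ^ e) * a, hk, ?_⟩
    rw [mul_left_comm, ha, map_mul, toQ_single]
    push_cast
    rfl

end ALG

section LAY

variable {F E H : Type} [Field F] [NumberField F] [Field E] [NumberField E] [Field H]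
  [NumberField H] [Algebra F E] [Algebra F H] [Algebra E H] [IsScalarTower F E H]
  [IsGalois F H] {G : Type} [CommGroup G] [Fintype G] {p j : ℕ} {P : Subgroup G}
  {ι : G ≃* (H ≃ₐ[F] H)} {ιE : P ≃* (H ≃ₐ[E] H)} {S T : Finset (HeightOneSpectrum (𝓞 F))}
  {r : ℕ} {w : Fin r → Pl H} {fr : HeightOneSpectrum (𝓞 F) → G}

theorem core_gen_e (hC : CycP p j P) (hD : Data ι S T r w fr) (hE : Lay ι P ιE) {m : ℕ}
    (hm : Fintype.card (PS (ovr E S)) = r * p ^ (j - 1) + m + 1)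
    (hl : ∀ l : ℕ, l.Prime → l ≠ p → LCore2 ι S T P w fr l) {κ e : ℕ}
    (hκ : p ^ (j - 1) * (κ * (p - 1) + 1) ≤ m + p ^ (j - 1) * (e * (p - 1))) :
    ∃ c : (G →* ℂˣ) → ℂ, LeadF S T r fr P c ∧ (∀ χ, Fth P χ → c χ ≠ 0) ∧
      ∃ (b : Fin r → UM ι S T) (x : MonoidAlgebra ℚ G), Core2 ι S T P w c b x ∧
        ∀ ψ : Fin r → (UM ι S T →ₗ[MonoidAlgebra ℤ G] MonoidAlgebra ℤ G),
          ∃ a : MonoidAlgebra ℤ G, MonoidAlgebra.single 1 ((p : ℚ) ^ e) *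
            (x * toQ G (pmat ψ b).det) = toQ G (MonoidAlgebra.single 1 ((p : ℤ) ^ κ) * a) := by
  have hDW := data_W hD
  obtain ⟨l₀, hl₀, hlp₀⟩ := cg_prime p
  obtain ⟨c, hc, hc0, b, x, hco, -⟩ := hl l₀ hl₀ hlp₀
  refine ⟨c, hc, hc0, b, x, hco, fun ψ => ?_⟩
  have hy : toQ G (nP P) * (x * toQ G (pmat ψ b).det) = 0 := by
    rw [← mul_assoc, hco.xminus, zero_mul]
  refine alg_fin_e hC _ hy (norm_dvd2 hC hDW hE hm hc hco ψ) hκ ?_
  intro l hl' hlp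
  obtain ⟨c', hc', hc0', b', x', hco', hint'⟩ := hl l hl' hlp
  rw [core_uniq2 hC hD (um_rank2 hC hDW hE) (leadf_uniq hc hc') hc0 hco hco' ψ]
  exact hint' ψ

end LAY

end Pool.Agent.RS4
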