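import Pool.Agent.Lib_helper35.RS4.A
import Pool.Agent.Lib_helper35.RS3.P_FT3
import Pool.Agent.Lib_helper35.RS2.P_CC

/-!
# Rubin's conjecture for abelian `p`-groups, all `S`: the elements for the cyclic quotients
-/

namespace Pool.Agent.RS4

set_option linter.unusedSectionVars false

open Pool.Agent.RSK Pool.Agent.RS2 Pool.Agent.RS3
open NumberField IsDedekindDomain Filter Topology Complex

section QK

variable {F K H : Type} [Field F] [NumberField F] [Field K] [NumberField K] [Field H]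
  [NumberField H] [Algebra F K] [Algebra F H] [Algebra K H] [IsScalarTower F K H]
  [IsGalois F H] [IsGalois F K] [IsGalois K H]
  {G G' : Type} [CommGroup G] [Fintype G] [CommGroup G'] [Fintype G'] {ι : G ≃* (H ≃ₐ[F] H)}
  {ι' : G' ≃* (K ≃ₐ[F] K)} {π : G →* G'} {p j : ℕ} {P' : Subgroup G'}
  {S T : Finset (HeightOneSpectrum (𝓞 F))} {r : ℕ} {w : Fin r → Pl H}
  {fr : HeightOneSpectrum (𝓞 F) → G}

/-- Either `v_1, …, v_r` are the places of `S` which split in `K`, or the faithful characters of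
`G'` have `L^{(r)}_{S,T}(χ, 0) = 0`. -/
theorem case_K4 (hq : Quo ι ι' π) (hC : CycP p j P')
    (hl : ∀ (S' T' : Finset (HeightOneSpectrum (𝓞 F))) (r' : ℕ) (w' : Fin r' → Pl K)
      (fr' : HeightOneSpectrum (𝓞 F) → G'), Data ι' S' T' r' w' fr' →
      ∀ l : ℕ, l.Prime → l ≠ p → LCore2 ι' S' T' P' w' fr' l)
    (hD : Data ι S T r w fr) :
    (Data ι' S T r (fun i => dn K (w i)) (fun v => π (fr v)) ∧
      ∀ W : Pl H, InS S (dn F W) → (∀ g : G, act (ι g) W = W → π g = 1) →
        ∃ i, dn F W = dn F (w i)) ∨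
      LeadF S T r (fun v => π (fr v)) P' (fun _ => 0) := by
  classical
  by_cases hall : ∀ W : Pl K, InS S (dn F W) → (∀ σ : K ≃ₐ[F] K, act σ W = W → σ = 1) →
      ∃ i, dn F W = dn F (w i)
  · left
    refine ⟨⟨hD.disj, ?_, hD.tors, ?_, ?_, ?_, ?_, ?_, ?_⟩, ?_⟩
    · intro W hW
      exact qk_unram (H := H) fun W' hW' => hD.unram W' (by rw [hW']; exact hW)
    · intro i
      rw [dn_dn]
      exact hD.mem i
    · intro i
      exact qk_split0 hq (hD.split i)
    · intro i j h
      rw [dn_dn, dn_dn] at h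
      exact hD.inj i j h
    · intro W h1 h2
      obtain ⟨i, hi⟩ := hall W h1 h2
      exact ⟨i, by rw [dn_dn, hi]⟩
    · exact hD.card
    · intro v hv
      exact quo_fr hq (hD.frob v hv)
    · intro W hWS hWg
      obtain ⟨i, hi⟩ := hall (dn K W) (by rw [dn_dn]; exact hWS) (qk_split hq hWg)
      exact ⟨i, by rw [← hi, dn_dn]⟩
  · right
    push Not at hall
    obtain ⟨W, hWS, hWs, hW⟩ := hall
    obtain ⟨r', w', hr', hmem, hsp, hinj, hal⟩ := qk_enum F K S
    have hcardS : Fintype.card (PS S) = Fintype.card (InfinitePlace F) + S.card := by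
      rw [Fintype.card_sum, Fintype.card_coe]
    -- `r < r'`
    have hrr : r < r' := by
      have h1 : ∀ j : Option (Fin r), ∃ i, dn F (j.elim W (fun i => dn K (w i))) = dn F (w' i) := by
        intro j
        rcases j with _ | j
        · exact hal W hWS hWs
        · refine hal (dn K (w j)) ?_ (qk_split0 hq (hD.split j))
          rw [dn_dn]
          exact hD.mem j
      choose φ hφ using h1
      have h2 : Function.Injective φ := by
        intro j j' h
        have h3 : dn F (j.elim W (fun i => dn K (w i))) =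
            dn F (j'.elim W (fun i => dn K (w i))) := by rw [hφ, hφ, h]
        rcases j with _ | j <;> rcases j' with _ | j'
        · rfl
        · exact absurd (show dn F W = dn F (dn K (w j')) from h3) (by rw [dn_dn]; exact hW j')
        · exact absurd (show dn F W = dn F (dn K (w j)) from h3.symm) (by rw [dn_dn]; exact hW j)
        · have h4 : dn F (dn K (w j)) = dn F (dn K (w j')) := h3
          rw [dn_dn, dn_dn] at h4
          rw [hD.inj j j' h4]
      have h3 := Fintype.card_le_of_injective φ h2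
      rw [Fintype.card_option, Fintype.card_fin, Fintype.card_fin] at h3
      exact h3
    -- the additional place
    obtain ⟨l, hl', hlp⟩ : ∃ l : ℕ, l.Prime ∧ l ≠ p := by
      by_cases h2 : p = 2
      · exact ⟨3, Nat.prime_three, fun h => by omega⟩
      · exact ⟨2, Nat.prime_two, fun h => h2 h.symm⟩
    have hne : ∃ σ : K ≃ₐ[F] K, σ ≠ 1 := by
      have hntr : Nontrivial G' := by
        rw [← Finite.one_lt_card_iff_nontrivial, hC.card]
        exact Nat.one_lt_pow hC.pos.ne' hC.prime.one_lt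
      obtain ⟨g, hg⟩ := exists_ne (1 : G')
      exact ⟨ι' g, fun h => hg ((map_eq_one_iff ι' ι'.injective).1 h)⟩
    obtain ⟨v, hvB, -, hns'⟩ := cheb0 hne (S ∪ T)
    have hns : ∀ g : G', IsFr v (ι' g) → g ≠ 1 := fun g hg h =>
      hns' _ hg (by rw [h, map_one])
    have hvS : v ∉ S := fun h => hvB (Finset.mem_union_left _ h)
    have hvT : v ∉ T := fun h => hvB (Finset.mem_union_right _ h)
    have hfrv : ∀ u, u ∉ S → IsFr u (ι' (π (fr u))) := fun u hu => quo_fr hq (hD.frob u hu)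
    have hnosplit : ∀ W : HeightOneSpectrum (𝓞 K), W.under (𝓞 F) = v →
        ¬ ∀ σ : K ≃ₐ[F] K, act σ (Sum.inr W : Pl K) = Sum.inr W → σ = 1 := by
      intro W hWu h
      have h1 := h _ (qk_fr_fix (hfrv v hvS) hWu)
      exact hns _ (hfrv v hvS) ((map_eq_one_iff ι' ι'.injective).1 h1)
    set S₂ : Finset (HeightOneSpectrum (𝓞 F)) := Finset.cons v S hvS with hS₂
    have hSS₂ : ∀ u, u ∉ S₂ → u ∉ S := fun u hu h => hu (by
      rw [hS₂, Finset.mem_cons]; exact Or.inr h)
    have hcard₂ : S₂.card = S.card + 1 := by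
      rw [hS₂, Finset.card_cons]
    have hinS₂ : ∀ P : Pl F, InS S P → InS S₂ P := by
      intro P hP
      rcases P with P | P
      · trivial
      · show P ∈ S₂
        by_contra h
        exact hSS₂ P h hP
    have hD' : Data ι' S₂ T r' w' (fun v => π (fr v)) := by
      refine ⟨?_, ?_, hD.tors, ?_, hsp, hinj, ?_, ?_, ?_⟩
      · rw [Finset.disjoint_left]
        intro u hu
        rw [hS₂, Finset.mem_cons] at hu
        rcases hu with rfl | hu
        · exact hvT
        · exact Finset.disjoint_left.1 hD.disj hu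
      · intro W hW
        exact qk_unram (H := H) fun W' hW' => hD.unram W' (by rw [hW']; exact hSS₂ _ hW)
      · intro i
        exact hinS₂ _ (hmem i)
      · intro W hW hs
        refine hal W ?_ hs
        rcases W with W | W
        · trivial
        · have h1 : W.under (𝓞 F) ∈ S₂ := hW
          rw [hS₂, Finset.mem_cons] at h1
          rcases h1 with h1 | h1
          · exact absurd hs (hnosplit W h1)
          · exact h1
      · rw [hcard₂]
        omega
      · intro u hu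
        exact hfrv u (hSS₂ u hu)
    obtain ⟨c, hc, -⟩ := hl S₂ T r' w' (fun v => π (fr v)) hD' l hl' hlp
    have hf : (fun v => π (fr v)) v ≠ 1 := hns (π (fr v)) (hfrv v hvS)
    have h1 := leadf_non (fr := fun v => π (fr v)) hC hvS hf hc
    exact qk_lead h1 hrr

end QK

section FT

variable {F H : Type} [Field F] [NumberField F] [Field H] [NumberField H] [Algebra F H]
  [IsGalois F H] {G : Type} [CommGroup G] [Fintype G] {p : ℕ} {ι : G ≃* (H ≃ₐ[F] H)}
  {S T : Finset (HeightOneSpectrum (𝓞 F))} {r : ℕ} {w : Fin r → Pl H}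
  {fr : HeightOneSpectrum (𝓞 F) → G}

/-- the data provided by the subgroup `N`, multiplied by `n` -/
structure Ft4Q (n : ℕ) (ι : G ≃* (H ≃ₐ[F] H)) (S T : Finset (HeightOneSpectrum (𝓞 F))) {r : ℕ}
    (w : Fin r → Pl H) (fr : HeightOneSpectrum (𝓞 F) → G) (N : Subgroup G)
    (c : (G →* ℂˣ) → ℂ) (b : Fin r → UM ι S T) (x : MonoidAlgebra ℚ G) : Prop where
  lead : ∀ χ : G →* ℂˣ, χ.ker = N → ∃ Λ : ℂ → ℂ, MeromorphicOn Λ Set.univ ∧
    (∀ s : ℂ, 1 < s.re → Λ s = LST S T fr χ s) ∧
    Tendsto (fun s : ℂ => Λ s / s ^ r) (𝓝[≠] 0) (𝓝 (c χ))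
  off : ∀ χ : G →* ℂˣ, χ.ker ≠ N → evQ χ x = 0
  val : ∀ χ : G →* ℂˣ, χ.ker = N → evQ χ x * evR χ (wmat ι S T w b).det = n * c χ⁻¹
  van : ∀ χ : G →* ℂˣ, χ.ker = N → c χ = 0 → evQ χ x = 0
  int : ∀ ψ : Fin r → (UM ι S T →ₗ[MonoidAlgebra ℤ G] MonoidAlgebra ℤ G),
    ∃ a : MonoidAlgebra ℤ G, x * toQ G (pmat ψ b).det = toQ G a

theorem ft4_N (hp : p.Prime) (hG : IsPGroup p G) (N : Subgroup G) (hcyc : IsCyclic (G ⧸ N))
    (hN : N ≠ ⊤) (hD : Data ι S T r w fr) (hθ : Hol3 p N.index F (Kf ι N))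
    {e : ℕ} (hS' : ∀ (N' : Subgroup G) (i : ℕ), N ≤ N' → N.index = p * N'.index →
      Nat.card N = p ^ i →
      (∀ W : Pl H, InS S (dn F W) → (∀ g : G, act (ι g) W = W → g ∈ N) →
        ∃ l, dn F W = dn F (w l)) →
      N'.index * (r + 1 + i * (p - 1)) <
        Fintype.card (PS (ovr (Kf ι N') S)) + N'.index * (e * (p - 1))) :
    ∃ (c : (G →* ℂˣ) → ℂ) (b : Fin r → UM ι S T) (x : MonoidAlgebra ℚ G),
      Ft4Q (p ^ e) ι S T w fr N c b x := by
  classical
  haveI := Fact.mk hp
  haveI := kf_galois ι N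
  obtain ⟨ι', hq⟩ := kf_quo ι N
  haveI : Fintype (G ⧸ N) := Fintype.ofFinite _
  obtain ⟨j, hj⟩ := IsPGroup.iff_card.1 (hG.to_quotient N)
  obtain ⟨i, hi⟩ := IsPGroup.iff_card.1 (hG.to_subgroup N)
  have hidx : N.index = p ^ j := hj
  have hj0 : 0 < j := by
    rcases Nat.eq_zero_or_pos j with h | h
    · exfalso
      rw [h, pow_zero] at hidx
      exact hN (Subgroup.index_eq_one.1 hidx)
    · exact h
  obtain ⟨P', hC⟩ := ft3_cycp hp hj0 hcyc hj
  have hH : Hol3 p (p ^ j) F (Kf ι N) := hidx ▸ hθ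
  have hl : ∀ (S' T' : Finset (HeightOneSpectrum (𝓞 F))) (r' : ℕ) (w' : Fin r' → Pl (Kf ι N))
      (fr' : HeightOneSpectrum (𝓞 F) → G ⧸ N), Data ι' S' T' r' w' fr' →
      ∀ l : ℕ, l.Prime → l ≠ p → LCore2 ι' S' T' P' w' fr' l := by
    intro S' T' r' w' fr' hD' l hl hlp
    exact lcore_all3 hC hH hD' hl hlp
  have hinj : ∀ χ' : G ⧸ N →* ℂˣ, Fth P' χ' → ∀ g, g ≠ 1 → χ' g ≠ 1 := by
    intro χ' hχ g hg
    exact fth_ne hC hχ hg
  have hlin : ∀ (χ : G →* ℂˣ) (h : χ.ker = N), Fth P' (ft3L N χ h.ge) := by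
    intro χ h
    refine ft3_fth hC ?_
    intro g hg h1
    obtain ⟨g, rfl⟩ := QuotientGroup.mk_surjective g
    apply hg
    have h2 : χ g = 1 := h1
    rw [← MonoidHom.mem_ker, h] at h2
    exact (QuotientGroup.eq_one_iff g).2 h2
  rcases case_K4 hq hC hl hD with ⟨hK, hW⟩ | hK
  · have hN' : N ≤ P'.comap (QuotientGroup.mk' N) := by
      intro x hx
      rw [Subgroup.mem_comap]
      have : (QuotientGroup.mk' N x) = 1 := by
        rw [← MonoidHom.mem_ker, QuotientGroup.ker_mk']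
        exact hx
      rw [this]
      exact one_mem _
    have hidx' : (P'.comap (QuotientGroup.mk' N)).index = P'.index :=
      Subgroup.index_comap_of_surjective _ (QuotientGroup.mk'_surjective N)
    have hP' : p * P'.index = p ^ j := by
      have := P'.card_mul_index
      rw [hC.cardP, hj] at this
      exact this
    have hP'' : P'.index = p ^ (j - 1) := by
      obtain ⟨l, rfl⟩ : ∃ l, j = l + 1 := ⟨j - 1, by omega⟩
      rw [pow_succ, mul_comm (p ^ l)] at hP'
      rw [Nat.add_sub_cancel]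
      exact Nat.eq_of_mul_eq_mul_left hp.pos hP'
    have hbig := hS' (P'.comap (QuotientGroup.mk' N)) i hN' (by rw [hidx', hP', hidx]) hi (by
      intro W hWS hWN
      refine hW W hWS ?_
      intro g hg
      have := hWN g hg
      rw [← MonoidHom.mem_ker, QuotientGroup.ker_mk']
      exact this)
    obtain ⟨e'⟩ := kf_kf N hq P'
    rw [hidx', hP'', ← card_ovr_congr e' S] at hbig
    obtain ⟨ιE, hE⟩ := lay_exists (ι := ι') P'
    obtain ⟨m, hm⟩ : ∃ m, Fintype.card (PS (ovr (Kf ι' P') S)) = r * p ^ (j - 1) + m + 1 := by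
      refine ⟨Fintype.card (PS (ovr (Kf ι' P') S)) - r * p ^ (j - 1) - 1, ?_⟩
      have h1 := card_ovr_ge hK P'
      have h2 := hK.card
      rw [hP''] at h1
      omega
    have hκ : p ^ (j - 1) * (i * (p - 1) + 1) ≤ m + p ^ (j - 1) * (e * (p - 1)) := by
      rw [hm] at hbig
      have h1 : p ^ (j - 1) * (r + 1 + i * (p - 1)) =
          r * p ^ (j - 1) + p ^ (j - 1) * (i * (p - 1) + 1) := by ring
      omega
    obtain ⟨c, hc, hc0, b, x, hco, hint⟩ := core_gen_e hC hK hE hm
      (fun l h1 h2 => hl S T r _ _ hK l h1 h2) hκ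
    obtain ⟨b₁, x₁, h1, h2, h3, h4⟩ := transport hq hD.split b
      (MonoidAlgebra.single 1 ((p : ℚ) ^ e) * x)
    have hker : Nat.card (QuotientGroup.mk' N).ker = p ^ i := by
      rw [QuotientGroup.ker_mk', hi]
    refine ⟨fun χ => if h : N ≤ χ.ker then c (ft3L N χ h) else 0, b₁, x₁, ?_, ?_, ?_, ?_, ?_⟩
    · intro χ hχ
      obtain ⟨Λ, g1, g2, g3⟩ := hc (ft3L N χ hχ.ge) (hlin χ hχ)
      refine ⟨Λ, g1, g2, ?_⟩
      rw [dif_pos hχ.ge]
      exact g3
    · intro χ hχ
      by_cases hf : ∃ χ' : G ⧸ N →* ℂˣ, χ = χ'.comp (QuotientGroup.mk' N)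
      · obtain ⟨χ', rfl⟩ := hf
        have hn : ¬ Fth P' χ' := fun h => hχ (ft3_ker_comp N χ' (hinj χ' h))
        have := h1 χ'
        rw [map_mul, (nP_zero_iff x).1 hco.xminus χ' hn, mul_zero] at this
        rcases mul_eq_zero.1 this with h | h
        · exact h
        · exfalso
          rw [hker] at h
          exact pow_ne_zero _ (by exact_mod_cast (pow_pos hp.pos _).ne') h
      · exact h2 χ hf
    · intro χ hχ
      have h := h3 (ft3L N χ hχ.ge)
      rw [ft3L_comp, map_mul, mul_assoc, hco.value _ (hlin χ hχ), ev_single] at h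
      rw [h, dif_pos (by rw [ft3_ker_inv]; exact hχ.ge)]
      push_cast
      congr 2
      apply MonoidHom.ext
      intro g
      obtain ⟨g, rfl⟩ := QuotientGroup.mk_surjective g
      rfl
    · intro χ hχ h0
      rw [dif_pos hχ.ge] at h0
      exact absurd h0 (hc0 _ (hlin χ hχ))
    · intro ψ
      obtain ⟨ψ', hψ'⟩ := h4 ψ
      obtain ⟨a, ha⟩ := hint ψ'
      refine hψ' a ?_
      rw [mul_assoc, ha, hker]
      push_cast
      rfl
  · refine ⟨fun _ => 0, fun _ => 0, 0, ?_, ?_, ?_, ?_, ?_⟩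
    · intro χ hχ
      exact hK (ft3L N χ hχ.ge) (hlin χ hχ)
    · intro χ _
      exact map_zero _
    · intro χ _
      rw [map_zero, zero_mul, mul_zero]
    · intro χ _ _
      exact map_zero _
    · intro ψ
      exact ⟨0, by rw [zero_mul, map_zero]⟩

end FT

end Pool.Agent.RS4
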